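import Mathlib
import Pool.Agent.Helper951.WheelCE

set_option autoImplicit false

namespace Pool.Agent.Results.MP_65a48b_co.QOneDisproof

open Finset Pool.Agent.Helper951.Defs Pool.Agent.Helper951.Spec Pool.Agent.Helper951.WheelCE

/-- `m` is an admissible edge number for Q1 (with the given `k`) and the bound of Q1 is violated by
a `W_{2k+1}`-free graph with `m` edges and without isolated vertices. -/
def ViolatesQ1 (k m : ℕ) : Prop :=
  m + k * (k + 1) / 2 ≡ 0 [MOD k] ∧
  ∃ (V : Type) (_ : Fintype V) (G : SimpleGraph V),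
    G.edgeSet.ncard = m ∧ (∀ v, ∃ w, G.Adj v w) ∧ ¬ (wheel (2 * k + 1)).IsContained G ∧
    ((k : ℝ) - 1 + Real.sqrt (4 * m - (k : ℝ) ^ 2 + 1)) / 2 < specRad G

/-- The graph `JM (2r+1) (2r+2)` violates the bound of Q1. -/
lemma violation (r : ℕ) (hr : 1 ≤ r) : ViolatesQ1 2 ((2 * r + 2) * (2 * r + 2) - 1) := by
  have hm : (2 * r + 2) * (2 * r + 2) - 1 = 4 * (r * r) + 8 * r + 3 := by
    have : (2 * r + 2) * (2 * r + 2) = 4 * (r * r) + 8 * r + 4 := by ring
    omega
  refine ⟨?_, Fin (2 * r + 1) ⊕ Fin (2 * (r + 1)), inferInstance, JM (2 * r + 1) (2 * (r + 1)),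
    ?_, ?_, JM_free _ _, ?_⟩
  · rw [hm]
    unfold Nat.ModEq
    omega
  · rw [Set.ncard_eq_toFinset_card', ← JM_edges_odd r]
    rfl
  · rintro (i | j)
    · exact ⟨Sum.inr ⟨0, by omega⟩, JM_lr _ _⟩
    · exact ⟨Sum.inl ⟨0, by omega⟩, JM_rl _ _⟩
  · have : Nonempty (Fin (2 * r + 1) ⊕ Fin (2 * (r + 1))) := ⟨Sum.inl ⟨0, by omega⟩⟩
    set T : ℝ := 2 * (r : ℝ) + 2 with hT
    have hrR : (1 : ℝ) ≤ r := by exact_mod_cast hr
    have hT4 : 4 ≤ T := by rw [hT]; linarith
    have hmR : ((((2 * r + 2) * (2 * r + 2) - 1 : ℕ)) : ℝ) = T ^ 2 - 1 := by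
      rw [hm, hT]
      push_cast
      ring
    rw [hmR]
    have hD : 4 * (T ^ 2 - 1) - ((2 : ℕ) : ℝ) ^ 2 + 1 = 4 * T ^ 2 - 7 := by
      push_cast
      ring
    rw [hD]
    set θ : ℝ := (((2 : ℕ) : ℝ) - 1 + Real.sqrt (4 * T ^ 2 - 7)) / 2 with hθ
    have hD0 : 0 ≤ 4 * T ^ 2 - 7 := by nlinarith
    have hsq := Real.sq_sqrt hD0
    have hs0 := Real.sqrt_nonneg (4 * T ^ 2 - 7)
    have hθeq : Real.sqrt (4 * T ^ 2 - 7) = 2 * θ - 1 := by
      rw [hθ]
      push_cast
      ring
    rw [hθeq] at hsq hs0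
    have hθ2 : θ ^ 2 - θ = T ^ 2 - 2 := by nlinarith
    have hθT : T < θ := by nlinarith
    have hθT2 : θ < T + 1 / 2 := by nlinarith
    have hθ1 : 0 < θ - 1 := by linarith
    have hθ0 : 0 < θ := by linarith
    let y : Fin (2 * r + 1) ⊕ Fin (2 * (r + 1)) → ℝ := Sum.elim
      (fun i => if 2 * (i.val / 2) + 1 < 2 * r + 1 then T / (θ - 1) else T / θ) (fun _ => 1)
    have hy0 : ∀ v, 0 ≤ y v := by
      rintro (i | j)
      · simp only [y, Sum.elim_inl]
        split_ifs
        · exact div_nonneg (by linarith) hθ1.le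
        · exact div_nonneg (by linarith) hθ0.le
      · simp only [y, Sum.elim_inr]
        exact zero_le_one
    have hrowl : ∀ i : Fin (2 * r + 1),
        ∑ u ∈ (JM (2 * r + 1) (2 * (r + 1))).neighborFinset (Sum.inl i), y u =
          θ * y (Sum.inl i) := by
      intro i
      rw [JM_sum_l]
      have h1 : ∑ j ∈ (Finset.univ.filter (fun j : Fin (2 * r + 1) => i.val ≠ j.val ∧
          i.val / 2 = j.val / 2)), y (Sum.inl j) =
          (if 2 * (i.val / 2) + 1 < 2 * r + 1 then 1 else 0) * y (Sum.inl i) := by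
        have h2 : ∀ j ∈ (Finset.univ.filter (fun j : Fin (2 * r + 1) => i.val ≠ j.val ∧
            i.val / 2 = j.val / 2)), y (Sum.inl j) = y (Sum.inl i) := by
          intro j hj
          rw [Finset.mem_filter] at hj
          simp only [y, Sum.elim_inl, hj.2.2]
        rw [Finset.sum_congr rfl h2, Finset.sum_const, mat_count, nsmul_eq_mul]
        congr 1
        split_ifs <;> simp
      have h3 : ∑ j : Fin (2 * (r + 1)), y (Sum.inr j) = T := by
        simp only [y, Sum.elim_inr, Finset.sum_const, Finset.card_univ, Fintype.card_fin,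
          nsmul_eq_mul, mul_one]
        rw [hT]
        push_cast
        ring
      rw [h1, h3]
      simp only [y, Sum.elim_inl]
      split_ifs
      · field_simp
        ring
      · field_simp
        ring
    have hrowr : ∀ j : Fin (2 * (r + 1)),
        θ * y (Sum.inr j) <
          ∑ u ∈ (JM (2 * r + 1) (2 * (r + 1))).neighborFinset (Sum.inr j), y u := by
      intro j
      rw [JM_sum_r]
      have h1 : ∑ i ∈ (Finset.univ.filter (fun i : Fin (2 * (r + 1)) => j.val ≠ i.val ∧
          j.val / 2 = i.val / 2)), y (Sum.inr i) = 1 := by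
        have h2 : ∀ i ∈ (Finset.univ.filter (fun i : Fin (2 * (r + 1)) => j.val ≠ i.val ∧
            j.val / 2 = i.val / 2)), y (Sum.inr i) = 1 := by
          intro i _
          simp only [y, Sum.elim_inr]
        rw [Finset.sum_congr rfl h2, Finset.sum_const, mat_count, nsmul_eq_mul]
        have := j.isLt
        rw [if_pos (by omega)]
        simp
      have h3 : ∑ i : Fin (2 * r + 1), y (Sum.inl i) = (T - 2) * (T / (θ - 1)) + T / θ := by
        rw [Fin.sum_univ_castSucc]
        have h4 : ∀ i : Fin (2 * r), y (Sum.inl i.castSucc) = T / (θ - 1) := by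
          intro i
          have := i.isLt
          simp only [y, Sum.elim_inl]
          rw [if_pos (by simp only [Fin.val_castSucc]; omega)]
        have h5 : y (Sum.inl (Fin.last (2 * r))) = T / θ := by
          simp only [y, Sum.elim_inl]
          rw [if_neg (by simp only [Fin.val_last]; omega)]
        rw [h5, Finset.sum_congr rfl (fun i _ => h4 i)]
        simp only [Finset.sum_const, Finset.card_univ, Fintype.card_fin, nsmul_eq_mul]
        rw [hT]
        push_cast
        ring
      rw [h1, h3]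
      simp only [y, Sum.elim_inr, mul_one]
      have hkey : 0 < (T - 2) * (1 - (θ - T)) := mul_pos (by linarith) (by linarith)
      have hθne : θ ≠ 0 := hθ0.ne'
      have hθ1ne : θ - 1 ≠ 0 := hθ1.ne'
      have h6 : (T - 2) * (T / (θ - 1)) + T / θ + 1 - θ =
          ((T - 2) * T * θ + T * (θ - 1) + (1 - θ) * (θ * (θ - 1))) / (θ * (θ - 1)) := by
        field_simp
        ring
      have h7 : (T - 2) * T * θ + T * (θ - 1) + (1 - θ) * (θ * (θ - 1)) =
          (T - 2) * (1 - (θ - T)) := by
        have h8 : θ * (θ - 1) = T ^ 2 - 2 := by linarith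
        rw [h8]
        ring
      rw [h7] at h6
      have h9 : 0 < (T - 2) * (1 - (θ - T)) / (θ * (θ - 1)) :=
        div_pos hkey (mul_pos hθ0 hθ1)
      linarith
    apply lt_specRad_of_sub _ y hy0 θ
    · rintro (i | j)
      · exact (hrowl i).ge
      · exact (hrowr j).le
    · refine ⟨Sum.inr ⟨0, by omega⟩, ?_, hrowr _⟩
      simp [y]

/-- Q1 fails for `k = 2`: infinitely many admissible `m` violate its bound. -/
theorem result : {m : ℕ | ViolatesQ1 2 m}.Infinite := by
  rw [Set.infinite_iff_exists_gt]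
  intro N
  refine ⟨(2 * (N + 1) + 2) * (2 * (N + 1) + 2) - 1, violation (N + 1) (by omega), ?_⟩
  have : (2 * (N + 1) + 2) * (2 * (N + 1) + 2) = 4 * (N * N) + 16 * N + 16 := by ring
  omega

end Pool.Agent.Results.MP_65a48b_co.QOneDisproof
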