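import Mathlib
import Pool.Agent.Helper951.WheelCE

set_option autoImplicit false

namespace Pool.Agent.Results.MP_65a48b_co.QTwoDisproof

open Finset Pool.Agent.Helper951.Defs Pool.Agent.Helper951.Spec Pool.Agent.Helper951.WheelCE

/-- `m` is an admissible edge number for Q2 (with the given `k`, residue `l` and
`n = (m-l)/k + (k+3)/2`) and the bound of Q2 is violated by a `W_{2k+1}`-free graph with `m` edges
and without isolated vertices. -/
def ViolatesQ2 (k m : ℕ) : Prop :=
  ∃ l n : ℕ, 1 ≤ l ∧ l ≤ k - 1 ∧ m + k * (k + 1) / 2 ≡ l [MOD k] ∧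
  (n : ℚ) = ((m : ℚ) - l) / k + (k + 3) / 2 ∧
  ∃ (V : Type) (_ : Fintype V) (G : SimpleGraph V),
    G.edgeSet.ncard = m ∧ (∀ v, ∃ w, G.Adj v w) ∧ ¬ (wheel (2 * k + 1)).IsContained G ∧
    specRad (S1 n k l) < specRad G

lemma nbr_sum {V : Type*} [Fintype V] [DecidableEq V] (G : SimpleGraph V) [DecidableRel G.Adj]
    (v : V) (y : V → ℝ) : ∑ u ∈ G.neighborFinset v, y u = ∑ u, (if G.Adj v u then y u else 0) := by
  rw [← Finset.sum_filter]
  apply Finset.sum_congr _ (fun _ _ => rfl)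
  ext u; simp

open Classical in
/-- an upper bound for the spectral radius of `S^{1,1}_{n,2}` -/
lemma S1_lt (t : ℕ) (θ : ℝ) (hθ : 0 < θ) (h : θ ^ 2 - θ = 2 * t + 2) :
    specRad (S1 (t + 3) 2 1) < θ := by
  have : Nonempty (Fin 1 ⊕ ((Fin (2 - 1) ⊕ Fin (t + 3 - 2 - 1)) ⊕ Fin 1)) := ⟨Sum.inl 0⟩
  set δ : ℝ := 1 / (t + 2) with hδ
  have ht : (0 : ℝ) ≤ t := Nat.cast_nonneg t
  have hδ0 : 0 < δ := by rw [hδ]; positivity
  have hδ1 : δ * (t + 1) < 1 := by
    rw [hδ, one_div, inv_mul_lt_iff₀ (by positivity)]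
    linarith
  let z : Fin 1 ⊕ ((Fin (2 - 1) ⊕ Fin (t + 3 - 2 - 1)) ⊕ Fin 1) → ℝ :=
    Sum.elim (fun _ => 1) (Sum.elim (Sum.elim (fun _ => 1) (fun _ => (2 + δ) / θ))
      (fun _ => (1 + δ) / θ))
  have hz : ∀ v, 0 < z v := by
    rintro (a | ((a | a) | a))
    · exact one_pos
    · exact one_pos
    · exact div_pos (by linarith) hθ
    · exact div_pos (by linarith) hθ
  have hc1 : Fintype.card (Fin (t + 3 - 2 - 1)) = t := by simp
  have key : θ + 2 * t + 1 + δ * (t + 1) < θ ^ 2 := by linarith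
  apply specRad_lt_of_super _ z hz
  rintro (a | ((a | a) | a))
  · have hrow : ∑ u ∈ (S1 (t + 3) 2 1).neighborFinset (Sum.inl a), z u =
        1 + t * ((2 + δ) / θ) + (1 + δ) / θ := by
      rw [nbr_sum]
      simp only [Fintype.sum_sum_type, S1, join, SimpleGraph.sum, z, Sum.elim_inl, Sum.elim_inr,
        if_true, Finset.sum_const, Finset.card_univ, hc1, Fintype.card_fin, nsmul_eq_mul]
      have : ∀ b : Fin 1, ¬ (⊤ : SimpleGraph (Fin 1)).Adj a b := by
        intro b hb
        exact hb (Subsingleton.elim _ _)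
      simp [this]
    rw [hrow]
    change _ < θ * 1
    have h1 : 1 + t * ((2 + δ) / θ) + (1 + δ) / θ = (θ + 2 * t + 1 + δ * (t + 1)) / θ := by
      field_simp
      ring
    rw [h1, mul_one, div_lt_iff₀ hθ]
    linarith
  · have hrow : ∑ u ∈ (S1 (t + 3) 2 1).neighborFinset (Sum.inr (Sum.inl (Sum.inl a))), z u =
        1 + t * ((2 + δ) / θ) := by
      rw [nbr_sum]
      simp only [Fintype.sum_sum_type, S1, join, SimpleGraph.sum, z, Sum.elim_inl, Sum.elim_inr,
        if_true, Finset.sum_const, Finset.card_univ, hc1, Fintype.card_fin, nsmul_eq_mul]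
      have : ∀ b : Fin (2 - 1), ¬ (⊤ : SimpleGraph (Fin (2 - 1))).Adj a b := by
        intro b hb
        apply hb
        have ha := a.isLt
        have hb := b.isLt
        ext
        omega
      simp [this]
    rw [hrow]
    change _ < θ * 1
    have h1 : 1 + t * ((2 + δ) / θ) = (θ + 2 * t + δ * t) / θ := by
      field_simp
      ring
    rw [h1, mul_one, div_lt_iff₀ hθ]
    nlinarith
  · have hrow : ∑ u ∈ (S1 (t + 3) 2 1).neighborFinset (Sum.inr (Sum.inl (Sum.inr a))), z u =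
        2 := by
      rw [nbr_sum]
      simp only [Fintype.sum_sum_type, S1, join, SimpleGraph.sum, z, Sum.elim_inl, Sum.elim_inr,
        if_true, Finset.sum_const, Finset.card_univ, hc1, Fintype.card_fin, nsmul_eq_mul]
      simp
      norm_num
    rw [hrow]
    change _ < θ * ((2 + δ) / θ)
    rw [mul_div_cancel₀ _ hθ.ne']
    linarith
  · have hrow : ∑ u ∈ (S1 (t + 3) 2 1).neighborFinset (Sum.inr (Sum.inr a)), z u = 1 := by
      rw [nbr_sum]
      simp only [Fintype.sum_sum_type, S1, join, SimpleGraph.sum, z, Sum.elim_inl, Sum.elim_inr,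
        if_true, Finset.sum_const, Finset.card_univ, hc1, Fintype.card_fin, nsmul_eq_mul]
      simp
    rw [hrow]
    change _ < θ * ((1 + δ) / θ)
    rw [mul_div_cancel₀ _ hθ.ne']
    linarith

/-- The graph `JM (2r) (2r)` violates the bound of Q2. -/
lemma violation (r : ℕ) (hr : 1 ≤ r) : ViolatesQ2 2 (2 * r * (2 * r + 1)) := by
  obtain ⟨t, ht⟩ : ∃ t, r * (2 * r + 1) = t + 1 :=
    Nat.exists_eq_succ_of_ne_zero (by positivity)
  refine ⟨1, t + 3, le_rfl, le_rfl, ?_, ?_, Fin (2 * r) ⊕ Fin (2 * r), inferInstance,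
    JM (2 * r) (2 * r), ?_, ?_, JM_free _ _, ?_⟩
  · have : 2 * r * (2 * r + 1) = 2 * (t + 1) := by rw [← ht]; ring
    rw [this]
    unfold Nat.ModEq
    omega
  · have : 2 * r * (2 * r + 1) = 2 * (t + 1) := by rw [← ht]; ring
    rw [this]
    push_cast
    ring
  · rw [Set.ncard_eq_toFinset_card', ← JM_edges_even r]
    rfl
  · rintro (i | j)
    · exact ⟨Sum.inr ⟨0, by omega⟩, JM_lr _ _⟩
    · exact ⟨Sum.inl ⟨0, by omega⟩, JM_rl _ _⟩
  · have : Nonempty (Fin (2 * r) ⊕ Fin (2 * r)) := ⟨Sum.inl ⟨0, by omega⟩⟩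
    have hlow : (2 * (r : ℝ) + 1) ≤ specRad (JM (2 * r) (2 * r)) := by
      apply le_specRad_of_sub (JM (2 * r) (2 * r)) (fun _ => 1) (fun _ => zero_le_one)
        ⟨Sum.inl ⟨0, by omega⟩, one_pos⟩
      rintro (i | i)
      · rw [Finset.sum_const, SimpleGraph.card_neighborFinset_eq_degree, JM_deg_l,
          nsmul_eq_mul, mul_one, mul_one]
        have := i.isLt
        rw [if_pos (by omega)]
        push_cast
        linarith
      · rw [Finset.sum_const, SimpleGraph.card_neighborFinset_eq_degree, JM_deg_r,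
          nsmul_eq_mul, mul_one, mul_one]
        have := i.isLt
        rw [if_pos (by omega)]
        push_cast
        linarith
    refine lt_of_lt_of_le ?_ hlow
    apply S1_lt
    · positivity
    · have h1 : (r : ℝ) * (2 * r + 1) = t + 1 := by exact_mod_cast ht
      nlinarith

/-- Q2 fails for `k = 2`: infinitely many admissible `m` violate its bound. -/
theorem result : {m : ℕ | ViolatesQ2 2 m}.Infinite := by
  rw [Set.infinite_iff_exists_gt]
  intro N
  refine ⟨2 * (N + 1) * (2 * (N + 1) + 1), violation (N + 1) (by omega), ?_⟩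
  have : 2 * (N + 1) * (2 * (N + 1) + 1) = 4 * (N * N) + 10 * N + 6 := by ring
  omega

end Pool.Agent.Results.MP_65a48b_co.QTwoDisproof
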